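import Pool.Agent.Helper18.LocDim.Defs

/-!
# Box systems and box posets
-/

namespace Pool.Agent.LocDim

/-- A box system: every box `b` has a layer and two sets `A b`, `B b` of coordinates. -/
structure BoxSys (κ β : Type) [DecidableEq κ] where
  layer : β → ℕ
  A : β → Finset κ
  B : β → Finset κ

variable {κ β : Type} [DecidableEq κ]

/-- The coordinates used by the box `b`. -/
def BoxSys.S (s : BoxSys κ β) (b : β) : Finset κ := s.A b ∪ s.B b

theorem BoxSys.mem_S (s : BoxSys κ β) (b : β) (i : κ) : i ∈ s.S b ↔ i ∈ s.A b ∨ i ∈ s.B b :=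
  Finset.mem_union

/-- The conditions which make the box poset have local dimension at most `d`. -/
structure BoxSys.Good (s : BoxSys κ β) (d : ℕ) : Prop where
  disj : ∀ b, Disjoint (s.A b) (s.B b)
  card : ∀ b, (s.S b).card = d
  same : ∀ b b', s.layer b = s.layer b' → b ≠ b' → ∃ i, i ∈ s.A b ∧ i ∈ s.B b'
  adj : ∀ b b', s.layer b' = s.layer b + 1 →
    ∃ i, i ∈ s.S b ∧ i ∈ s.S b' ∧ ¬ (i ∈ s.A b ∧ i ∈ s.B b')
  far : ∀ b b', s.layer b + 2 ≤ s.layer b' → ∃ i, i ∈ s.S b ∧ i ∈ s.S b'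

/-- The box poset: an element is a box `b` together with a grid point `x` supported on the
coordinates of `b`. -/
@[ext] structure BoxPoset (s : BoxSys κ β) (n : ℕ) where
  box : β
  x : κ → Fin (n + 1)
  supp : ∀ i, i ∉ s.S box → x i = 0

namespace BoxPoset

variable {s : BoxSys κ β} {n : ℕ}

instance [Finite κ] [Finite β] : Finite (BoxPoset s n) :=
  Finite.of_injective (fun p => (p.box, p.x) : BoxPoset s n → β × (κ → Fin (n + 1)))
    (fun p q h => BoxPoset.ext (congrArg Prod.fst h) (congrArg Prod.snd h))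

instance [Nonempty β] : Nonempty (BoxPoset s n) := ⟨⟨Classical.arbitrary β, 0, fun _ _ => rfl⟩⟩

instance : PartialOrder (BoxPoset s n) where
  le p q := (p.box = q.box ∧ ∀ i, p.x i ≤ q.x i) ∨ (s.layer p.box + 2 ≤ s.layer q.box) ∨
    (s.layer q.box = s.layer p.box + 1 ∧ ∀ i, i ∈ s.A p.box → i ∈ s.B q.box → p.x i ≤ q.x i)
  le_refl p := Or.inl ⟨rfl, fun _ => le_rfl⟩
  le_trans p q r h h' := by
    rcases h with ⟨h1, h2⟩ | h | ⟨h1, h2⟩ <;> rcases h' with ⟨h1', h2'⟩ | h' | ⟨h1', h2'⟩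
    · exact Or.inl ⟨h1.trans h1', fun i => (h2 i).trans (h2' i)⟩
    · exact Or.inr (Or.inl (by rw [h1]; exact h'))
    · exact Or.inr (Or.inr ⟨by rw [h1]; exact h1', fun i hi hi' =>
        (h2 i).trans (h2' i (by rw [← h1]; exact hi) hi')⟩)
    · exact Or.inr (Or.inl (by rw [← h1']; exact h))
    · exact Or.inr (Or.inl (by omega))
    · exact Or.inr (Or.inl (by omega))
    · exact Or.inr (Or.inr ⟨by rw [← h1']; exact h1, fun i hi hi' =>
        (h2 i hi (by rw [h1']; exact hi')).trans (h2' i)⟩)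
    · exact Or.inr (Or.inl (by omega))
    · exact Or.inr (Or.inl (by omega))
  le_antisymm p q h h' := by
    rcases h with ⟨h1, h2⟩ | h | ⟨h1, h2⟩ <;> rcases h' with ⟨h1', h2'⟩ | h' | ⟨h1', h2'⟩
    · exact BoxPoset.ext h1 (funext fun i => le_antisymm (h2 i) (h2' i))
    · rw [h1] at h'; omega
    · rw [h1] at h1'; omega
    · rw [h1'] at h; omega
    · omega
    · omega
    · rw [h1'] at h1; omega
    · omega
    · omega

theorem le_def (p q : BoxPoset s n) : p ≤ q ↔
    (p.box = q.box ∧ ∀ i, p.x i ≤ q.x i) ∨ (s.layer p.box + 2 ≤ s.layer q.box) ∨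
    (s.layer q.box = s.layer p.box + 1 ∧
      ∀ i, i ∈ s.A p.box → i ∈ s.B q.box → p.x i ≤ q.x i) := Iff.rfl

end BoxPoset

end Pool.Agent.LocDim
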