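import Pool.Agent.Helper18.LocDim.Box

/-!
# The concrete box system
-/

namespace Pool.Agent.LocDim

/-- Coordinates: `17` groups of `6` coordinates. -/
abbrev KK := ZMod 17 × Fin 6

/-- The middle boxes `(S, a, c)`. -/
abbrev MidBox := {S : Finset (ZMod 17) // S.card = 4} × ZMod 17 × ZMod 17

/-- Boxes: three bottom boxes, the middle boxes, three top boxes. -/
inductive Box
  | bot (r : Fin 3) : Box
  | mid (m : MidBox) : Box
  | top (r : Fin 3) : Box

/-- `17` distinct `3`-subsets of `Fin 6`. -/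
def W (v : ZMod 17) : Finset (Fin 6) :=
  (![{0, 1, 2}, {0, 1, 3}, {0, 1, 4}, {0, 1, 5}, {0, 2, 3}, {0, 2, 4}, {0, 2, 5}, {0, 3, 4},
    {0, 3, 5}, {0, 4, 5}, {1, 2, 3}, {1, 2, 4}, {1, 2, 5}, {1, 3, 4}, {1, 3, 5}, {1, 4, 5},
    {2, 3, 4}] : Fin 17 → Finset (Fin 6)) v

/-- The polynomial function of a middle box. -/
def fval (m : MidBox) (t : ZMod 17) : ZMod 17 :=
  t ^ 2 * (∏ s ∈ m.1.1, (t - s)) + m.2.1 * t + m.2.2

/-- The three classes of `Fin 6` used by the outer boxes. -/
def cls (l : Fin 6) : Fin 3 := ⟨l.1 / 2, by omega⟩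

/-- The concrete box system. -/
def sys : BoxSys KK Box where
  layer
    | .bot _ => 0
    | .mid _ => 1
    | .top _ => 2
  A
    | .bot r => Finset.univ.filter fun i : KK => cls i.2 ≠ r
    | .mid m => Finset.univ.filter fun i : KK => i.1 ∉ m.1.1 ∧ i.2 ∈ W (fval m i.1)
    | .top r => Finset.univ.filter fun i : KK => i.1.val < 5 ∧ cls i.2 = r
  B
    | .bot r => Finset.univ.filter fun i : KK => i.1.val < 5 ∧ cls i.2 = r
    | .mid m => Finset.univ.filter fun i : KK => i.1 ∉ m.1.1 ∧ i.2 ∉ W (fval m i.1)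
    | .top r => Finset.univ.filter fun i : KK => cls i.2 ≠ r

theorem W_card : ∀ v, (W v).card = 3 := by decide
theorem W_injective : Function.Injective W := by
  unfold Function.Injective; decide
theorem exists_mem_W : ∀ l : Fin 6, ∃ v, l ∈ W v := by decide
theorem exists_not_mem_W : ∀ l : Fin 6, ∃ v, l ∉ W v := by decide

end Pool.Agent.LocDim
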