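import Mathlib

/-!
# Local dimension of finite posets: definitions and basic API

`PLE α` is a partial linear extension of the poset `α`, `IsLR L` says that the family `L` of
partial linear extensions is a local realizer, `HasLR α k` says that `α` has a finite local
realizer in which every element occurs in at most `k` members, and `ldim α` is the least such `k`.
-/

namespace Pool.Agent.LocDim

/-- A partial linear extension of the poset `α`: a strict linear order `lt` on the set `dom`
that contains the strict order of `α` restricted to `dom`. -/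
structure PLE (α : Type*) [PartialOrder α] where
  /-- the ground set -/
  dom : Set α
  /-- the strict linear order (only its restriction to `dom` matters) -/
  lt : α → α → Prop
  irrefl : ∀ x ∈ dom, ¬ lt x x
  trans : ∀ x ∈ dom, ∀ y ∈ dom, ∀ z ∈ dom, lt x y → lt y z → lt x z
  total : ∀ x ∈ dom, ∀ y ∈ dom, x ≠ y → lt x y ∨ lt y x
  ext : ∀ x ∈ dom, ∀ y ∈ dom, x < y → lt x y

variable {α β ι : Type*} [PartialOrder α] [PartialOrder β]

/-- `L` contains `x` and `y` and places `x` before `y`. -/
def PLE.Before (L : PLE α) (x y : α) : Prop := x ∈ L.dom ∧ y ∈ L.dom ∧ L.lt x y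

/-- The family `L` is a local realizer of `α`. -/
structure IsLR (L : ι → PLE α) : Prop where
  comparable : ∀ x y, x < y → ∃ i, (L i).Before x y
  incomparable : ∀ x y, ¬ x ≤ y → ¬ y ≤ x → (∃ i, (L i).Before x y) ∧ (∃ i, (L i).Before y x)

/-- The frequency of `x`: the number of members of the family whose ground set contains `x`. -/
noncomputable def freq (L : ι → PLE α) (x : α) : ℕ := {i | x ∈ (L i).dom}.ncard

/-- `α` has a (finite) local realizer in which every element has frequency at most `k`. -/
def HasLR (α : Type*) [PartialOrder α] (k : ℕ) : Prop :=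
  ∃ (ι : Type) (_ : Finite ι) (L : ι → PLE α), IsLR L ∧ ∀ x, freq L x ≤ k

/-- The local dimension. -/
noncomputable def ldim (α : Type*) [PartialOrder α] : ℕ := sInf {k | HasLR α k}

/-- The comparability graph. -/
def compGraph (α : Type*) [PartialOrder α] : SimpleGraph α where
  Adj x y := x < y ∨ y < x
  symm := ⟨fun _ _ h => Or.symm h⟩
  loopless := ⟨fun _ h => h.elim (lt_irrefl _) (lt_irrefl _)⟩

/-- The set of values `ldim α` over all finite disconnected posets `α` all of whose components
have local dimension at most `d`; `f(d)` is its maximum. -/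
def fSet (d : ℕ) : Set ℕ :=
  {k | ∃ (α : Type) (_ : Finite α) (_ : PartialOrder α),
    (∃ c c' : (compGraph α).ConnectedComponent, c ≠ c') ∧
    (∀ c : (compGraph α).ConnectedComponent, ldim ↥c.supp ≤ d) ∧ ldim α = k}

/-! ## API -/

/-- Enough: every non-reversed pair is placed. -/
theorem IsLR.of_before {L : ι → PLE α} (h : ∀ x y, ¬ y ≤ x → ∃ i, (L i).Before x y) :
    IsLR L where
  comparable x y hxy := h x y (not_le_of_gt hxy)
  incomparable x y hxy hyx := ⟨h x y hyx, h y x hxy⟩

theorem IsLR.before {L : ι → PLE α} (h : IsLR L) {x y : α} (hxy : ¬ y ≤ x) :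
    ∃ i, (L i).Before x y := by
  by_cases hle : x ≤ y
  · exact h.comparable x y (lt_of_le_not_ge hle hxy)
  · exact (h.incomparable x y hle hxy).1

namespace PLE

theorem Before.left {L : PLE α} {x y : α} (h : L.Before x y) : x ∈ L.dom := h.1
theorem Before.right {L : PLE α} {x y : α} (h : L.Before x y) : y ∈ L.dom := h.2.1

theorem not_before_self (L : PLE α) (x : α) : ¬ L.Before x x :=
  fun h => L.irrefl x h.1 h.2.2

theorem Before.trans {L : PLE α} {x y z : α} (h : L.Before x y) (h' : L.Before y z) :
    L.Before x z :=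
  ⟨h.1, h'.2.1, L.trans x h.1 y h.2.1 z h'.2.1 h.2.2 h'.2.2⟩

theorem Before.asymm {L : PLE α} {x y : α} (h : L.Before x y) : ¬ L.Before y x :=
  fun h' => L.not_before_self x (h.trans h')

theorem before_of_lt (L : PLE α) {x y : α} (hx : x ∈ L.dom) (hy : y ∈ L.dom) (h : x < y) :
    L.Before x y := ⟨hx, hy, L.ext x hx y hy h⟩

theorem before_or_before (L : PLE α) {x y : α} (hx : x ∈ L.dom) (hy : y ∈ L.dom) (h : x ≠ y) :
    L.Before x y ∨ L.Before y x :=
  (L.total x hx y hy h).imp (fun h => ⟨hx, hy, h⟩) (fun h => ⟨hy, hx, h⟩)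

theorem Before.trans_le {L : PLE α} {x y z : α} (h : L.Before x y) (hz : z ∈ L.dom)
    (h' : y ≤ z) : L.Before x z := by
  rcases h'.eq_or_lt with rfl | h'
  · exact h
  · exact h.trans (L.before_of_lt h.2.1 hz h')

theorem Before.le_trans {L : PLE α} {x y z : α} (h' : L.Before y z) (hx : x ∈ L.dom)
    (h : x ≤ y) : L.Before x z := by
  rcases h.eq_or_lt with rfl | h
  · exact h'
  · exact (L.before_of_lt hx h'.1 h).trans h'

/-- The partial linear extension given by an injective monotone key. -/
def ofKey {γ : Type*} [LinearOrder γ] (D : Set α) (f : α → γ) (hinj : Set.InjOn f D)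
    (hmono : ∀ x ∈ D, ∀ y ∈ D, x < y → f x < f y) : PLE α where
  dom := D
  lt x y := f x < f y
  irrefl x _ := lt_irrefl _
  trans _ _ _ _ _ _ h h' := h.trans h'
  total x hx y hy hne := by
    rcases lt_trichotomy (f x) (f y) with h | h | h
    · exact Or.inl h
    · exact absurd (hinj hx hy h) hne
    · exact Or.inr h
  ext := hmono

@[simp] theorem ofKey_dom {γ : Type*} [LinearOrder γ] (D : Set α) (f : α → γ)
    (hinj : Set.InjOn f D) (hmono : ∀ x ∈ D, ∀ y ∈ D, x < y → f x < f y) :
    (ofKey D f hinj hmono).dom = D := rfl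

@[simp] theorem ofKey_before {γ : Type*} [LinearOrder γ] (D : Set α) (f : α → γ)
    (hinj : Set.InjOn f D) (hmono : ∀ x ∈ D, ∀ y ∈ D, x < y → f x < f y) (x y : α) :
    (ofKey D f hinj hmono).Before x y ↔ x ∈ D ∧ y ∈ D ∧ f x < f y := Iff.rfl

/-- Pull a partial linear extension back along an order embedding. -/
def comap (L : PLE β) (e : α ↪o β) : PLE α where
  dom := e ⁻¹' L.dom
  lt x y := L.lt (e x) (e y)
  irrefl x hx := L.irrefl (e x) hx
  trans x hx y hy z hz := L.trans (e x) hx (e y) hy (e z) hz
  total x hx y hy hne := L.total (e x) hx (e y) hy (fun h => hne (e.injective h))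
  ext x hx y hy h := L.ext (e x) hx (e y) hy (e.lt_iff_lt.2 h)

@[simp] theorem comap_before (L : PLE β) (e : α ↪o β) (x y : α) :
    (L.comap e).Before x y ↔ L.Before (e x) (e y) := Iff.rfl

@[simp] theorem mem_comap_dom (L : PLE β) (e : α ↪o β) (x : α) :
    x ∈ (L.comap e).dom ↔ e x ∈ L.dom := Iff.rfl

end PLE

theorem IsLR.comap {L : ι → PLE β} (h : IsLR L) (e : α ↪o β) :
    IsLR (fun i => (L i).comap e) := by
  refine IsLR.of_before fun x y hxy => ?_
  obtain ⟨i, hi⟩ := h.before (x := e x) (y := e y) (fun hle => hxy (e.le_iff_le.1 hle))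
  exact ⟨i, hi⟩

theorem freq_comap (L : ι → PLE β) (e : α ↪o β) (x : α) :
    freq (fun i => (L i).comap e) x = freq L (e x) := rfl

theorem HasLR.mono {k k' : ℕ} (h : HasLR α k) (hk : k ≤ k') : HasLR α k' := by
  obtain ⟨ι, hι, L, hL, hf⟩ := h
  exact ⟨ι, hι, L, hL, fun x => (hf x).trans hk⟩

theorem HasLR.of_embedding {k : ℕ} (e : α ↪o β) (h : HasLR β k) : HasLR α k := by
  obtain ⟨ι, hι, L, hL, hf⟩ := h
  exact ⟨ι, hι, fun i => (L i).comap e, hL.comap e, fun x => hf (e x)⟩

/-- Build `HasLR` from a family indexed by any finite type (any universe). -/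
theorem HasLR.of_family {ι : Type*} [Finite ι] {k : ℕ} (L : ι → PLE α)
    (hL : ∀ x y, ¬ y ≤ x → ∃ i, (L i).Before x y) (hf : ∀ x, freq L x ≤ k) : HasLR α k := by
  obtain ⟨n, ⟨e⟩⟩ := Finite.exists_equiv_fin ι
  refine ⟨Fin n, inferInstance, fun i => L (e.symm i), IsLR.of_before fun x y hxy => ?_,
    fun x => ?_⟩
  · obtain ⟨i, hi⟩ := hL x y hxy
    exact ⟨e i, by simpa using hi⟩
  · refine le_trans (le_of_eq ?_) (hf x)
    unfold freq
    have : {i | x ∈ (L (e.symm i)).dom} = e.symm ⁻¹' {i | x ∈ (L i).dom} := rfl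
    rw [this]
    have h2 := Set.ncard_image_of_injective (e.symm ⁻¹' {i | x ∈ (L i).dom}) e.symm.injective
    rw [Set.image_preimage_eq _ e.symm.surjective] at h2
    exact h2.symm

/-- Every finite poset has a local realizer: all two-element chains. -/
theorem exists_hasLR (α : Type*) [PartialOrder α] [Finite α] : ∃ k, HasLR α k := by
  classical
  -- index: ordered pairs `(x, y)` with `¬ y ≤ x`
  let ι := {p : α × α // ¬ p.2 ≤ p.1}
  let L : ι → PLE α := fun p => PLE.ofKey {z | z = p.1.1 ∨ z = p.1.2}
    (fun z => if z = p.1.1 then (0 : ℕ) else 1)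
    (by
      rintro a ha b hb hab
      have hne : p.1.2 ≠ p.1.1 := fun h => p.2 h.le
      rcases ha with rfl | rfl <;> rcases hb with rfl | rfl <;> simp_all)
    (by
      rintro a ha b hb hab
      have hne : p.1.2 ≠ p.1.1 := fun h => p.2 h.le
      rcases ha with rfl | rfl <;> rcases hb with rfl | rfl
      · exact absurd hab (lt_irrefl _)
      · simp [hne]
      · exact absurd hab.le p.2
      · exact absurd hab (lt_irrefl _))
  have hfin : Finite ι := inferInstance
  refine ⟨Nat.card ι, HasLR.of_family L (fun x y hxy => ⟨⟨(x, y), hxy⟩, ?_⟩) fun x => ?_⟩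
  · have hne : y ≠ x := fun h => hxy h.le
    refine ⟨Or.inl rfl, Or.inr rfl, ?_⟩
    show (if x = x then (0 : ℕ) else 1) < (if y = x then (0 : ℕ) else 1)
    simp [hne]
  · unfold freq
    exact Set.ncard_le_card _

theorem ldim_le_iff [Finite α] {k : ℕ} : ldim α ≤ k ↔ HasLR α k := by
  constructor
  · intro h
    have := Nat.sInf_mem (exists_hasLR α)
    exact HasLR.mono this h
  · intro h
    exact Nat.sInf_le h

end Pool.Agent.LocDim
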