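import Pool.Agent.Helper18.LocDim.Defs

/-!
# Lexicographic products and standard examples
-/

namespace Pool.Agent.LocDim

/-- Lexicographic product `α[β]`: first coordinate dominates. -/
@[ext] structure LexP (α β : Type*) where
  fst : α
  snd : β

namespace LexP

variable {α β : Type*}

/-- `LexP α β` is the product as a type. -/
def equiv (α β : Type*) : LexP α β ≃ α × β where
  toFun p := (p.fst, p.snd)
  invFun p := ⟨p.1, p.2⟩
  left_inv _ := rfl
  right_inv _ := rfl

instance [Finite α] [Finite β] : Finite (LexP α β) := Finite.of_equiv _ (equiv α β).symm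

instance [Nonempty α] [Nonempty β] : Nonempty (LexP α β) :=
  ⟨⟨Classical.arbitrary α, Classical.arbitrary β⟩⟩

variable [PartialOrder α] [PartialOrder β]

instance : PartialOrder (LexP α β) where
  le p q := p.fst < q.fst ∨ (p.fst = q.fst ∧ p.snd ≤ q.snd)
  le_refl p := Or.inr ⟨rfl, le_rfl⟩
  le_trans p q r h h' := by
    rcases h with h | ⟨h1, h2⟩ <;> rcases h' with h' | ⟨h1', h2'⟩
    · exact Or.inl (h.trans h')
    · exact Or.inl (h1' ▸ h)
    · exact Or.inl (h1 ▸ h')
    · exact Or.inr ⟨h1.trans h1', h2.trans h2'⟩
  le_antisymm p q h h' := by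
    rcases h with h | ⟨h1, h2⟩ <;> rcases h' with h' | ⟨h1', h2'⟩
    · exact absurd (h.trans h') (lt_irrefl _)
    · exact absurd (h1' ▸ h) (lt_irrefl _)
    · exact absurd (h1 ▸ h') (lt_irrefl _)
    · exact LexP.ext h1 (le_antisymm h2 h2')

theorem le_def (p q : LexP α β) :
    p ≤ q ↔ p.fst < q.fst ∨ (p.fst = q.fst ∧ p.snd ≤ q.snd) := Iff.rfl

theorem lt_def (p q : LexP α β) :
    p < q ↔ p.fst < q.fst ∨ (p.fst = q.fst ∧ p.snd < q.snd) := by
  rw [lt_iff_le_and_ne, le_def]
  constructor
  · rintro ⟨h | ⟨h1, h2⟩, hne⟩
    · exact Or.inl h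
    · refine Or.inr ⟨h1, lt_of_le_of_ne h2 fun h => hne (LexP.ext h1 h)⟩
  · rintro (h | ⟨h1, h2⟩)
    · exact ⟨Or.inl h, fun he => by rw [he] at h; exact lt_irrefl _ h⟩
    · exact ⟨Or.inr ⟨h1, h2.le⟩, fun he => by rw [he] at h2; exact lt_irrefl _ h2⟩

/-- The block over `x`. -/
def block (x : α) : β ↪o LexP α β where
  toFun s := ⟨x, s⟩
  inj' s t h := by simpa using congrArg LexP.snd h
  map_rel_iff' {s t} := by
    show (x < x ∨ (x = x ∧ s ≤ t)) ↔ s ≤ t
    simp

@[simp] theorem block_apply (x : α) (s : β) : (block x s : LexP α β) = ⟨x, s⟩ := rfl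

end LexP

/-- The standard example with `N` minimal elements `a i` and `N` maximal elements `b i`;
`a i < b j` iff `i ≠ j`. -/
inductive StdEx (N : ℕ) : Type
  | a (i : Fin N) : StdEx N
  | b (i : Fin N) : StdEx N
  deriving DecidableEq

namespace StdEx

variable {N : ℕ}

/-- `StdEx N` is a sum of two copies of `Fin N`. -/
def equiv (N : ℕ) : StdEx N ≃ Fin N ⊕ Fin N where
  toFun | a i => Sum.inl i | b i => Sum.inr i
  invFun | Sum.inl i => a i | Sum.inr i => b i
  left_inv x := by cases x <;> rfl
  right_inv x := by cases x <;> rfl

instance : Finite (StdEx N) := Finite.of_equiv _ (equiv N).symm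

instance : PartialOrder (StdEx N) where
  le x y := match x, y with
    | a i, a j => i = j
    | b i, b j => i = j
    | a i, b j => i ≠ j
    | b _, a _ => False
  le_refl x := by cases x <;> rfl
  le_trans x y z h h' := by
    cases x <;> cases y <;> cases z <;> simp_all
  le_antisymm x y h h' := by
    cases x <;> cases y <;> simp_all

@[simp] theorem a_le_a {i j : Fin N} : a i ≤ a j ↔ i = j := Iff.rfl
@[simp] theorem b_le_b {i j : Fin N} : b i ≤ b j ↔ i = j := Iff.rfl
@[simp] theorem a_le_b {i j : Fin N} : a i ≤ b j ↔ i ≠ j := Iff.rfl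
@[simp] theorem b_le_a {i j : Fin N} : b i ≤ a j ↔ False := Iff.rfl

/-- First linear extension, as an integer key: `a 0 < a 1 < ... < b 0 < b 1 < ...`. -/
def key1 : StdEx N → ℤ
  | a i => (i : ℕ)
  | b i => N + (i : ℕ)

/-- Second linear extension: `... < a 1 < a 0 < ... < b 1 < b 0`. -/
def key2 : StdEx N → ℤ
  | a i => -((i : ℕ) : ℤ)
  | b i => N - ((i : ℕ) : ℤ)

theorem key1_injective : Function.Injective (key1 (N := N)) := by
  intro x y h
  cases x with
  | a i => cases y with
    | a j => simp only [key1] at h; congr 1; ext; omega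
    | b j => simp only [key1] at h; have := i.2; omega
  | b i => cases y with
    | a j => simp only [key1] at h; have := j.2; omega
    | b j => simp only [key1] at h; congr 1; ext; omega

theorem key2_injective : Function.Injective (key2 (N := N)) := by
  intro x y h
  cases x with
  | a i => cases y with
    | a j => simp only [key2] at h; congr 1; ext; omega
    | b j => simp only [key2] at h; have := i.2; have := j.2; omega
  | b i => cases y with
    | a j => simp only [key2] at h; have := i.2; have := j.2; omega
    | b j => simp only [key2] at h; congr 1; ext; omega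

theorem key1_lt_of_lt {x y : StdEx N} (h : x < y) : key1 x < key1 y := by
  have hle := h.le
  have hne := h.ne
  cases x with
  | a i => cases y with
    | a j => simp at hle; simp [hle] at hne
    | b j => simp only [key1]; have := i.2; omega
  | b i => cases y with
    | a j => simp at hle
    | b j => simp at hle; simp [hle] at hne

theorem key2_lt_of_lt {x y : StdEx N} (h : x < y) : key2 x < key2 y := by
  have hle := h.le
  have hne := h.ne
  cases x with
  | a i => cases y with
    | a j => simp at hle; simp [hle] at hne
    | b j => simp only [key2]; have := i.2; have := j.2; omega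
  | b i => cases y with
    | a j => simp at hle
    | b j => simp at hle; simp [hle] at hne

/-- The two keys reverse everything except the pairs `b k`, `a k`. -/
theorem key_realize {x y : StdEx N} (h : ¬ y ≤ x) :
    key1 x < key1 y ∨ key2 x < key2 y ∨ ∃ k, x = b k ∧ y = a k := by
  cases x with
  | a i => cases y with
    | a j =>
      simp only [a_le_a] at h
      have : (i : ℕ) ≠ j := fun hh => h (Fin.ext hh.symm)
      rcases lt_or_gt_of_ne this with h1 | h1
      · left; simp only [key1]; omega
      · right; left; simp only [key2]; omega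
    | b j => left; simp only [key1]; have := i.2; omega
  | b i => cases y with
    | a j =>
      right; right
      simp only [a_le_b, not_not] at h
      exact ⟨i, rfl, by rw [h]⟩
    | b j =>
      simp only [b_le_b] at h
      have : (i : ℕ) ≠ j := fun hh => h (Fin.ext hh.symm)
      rcases lt_or_gt_of_ne this with h1 | h1
      · left; simp only [key1]; omega
      · right; left; simp only [key2]; omega

end StdEx

end Pool.Agent.LocDim
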